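import Pool.Agent.COSB.StmtsE

/-!
# Squad COSB, row TFE (helper21): tensor isomorphism over finite fields is in parity-P

The structure follows the row TIF of helper13.
-/

set_option autoImplicit false

namespace Pool.Agent.COSB.H21E

open Pool.Agent.PAR Pool.Agent.COS Pool.Agent.COSB

/-! ### the words of tensors -/

theorem flatMap_inj {α β : Type} (b : ℕ) (f g : α → List β) (hf : ∀ a, (f a).length = b)
    (hg : ∀ a, (g a).length = b) (l : List α) (h : l.flatMap f = l.flatMap g) :
    ∀ a ∈ l, f a = g a := by
  induction l with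
  | nil =>
    intro a ha
    exact absurd ha (List.not_mem_nil)
  | cons x l ih =>
    rw [List.flatMap_cons, List.flatMap_cons] at h
    obtain ⟨h1, h2⟩ := List.append_inj h (by rw [hf, hg])
    intro a ha
    rcases List.mem_cons.1 ha with rfl | ha
    · exact h1
    · exact ih h2 a ha

theorem flatMap_length {α β : Type} (b : ℕ) (f : α → List β) (hf : ∀ a, (f a).length = b)
    (l : List α) : (l.flatMap f).length = l.length * b := by
  induction l with
  | nil => simp
  | cons x l ih =>
    rw [List.flatMap_cons, List.length_append, hf, ih, List.length_cons]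
    ring

section
variable {E : Type} [Field E] (c : E → Word) (l : ℕ) (hc : Function.Injective c)
  (hl : ∀ e, (c e).length = l)

include hc hl in
theorem l_pos : 0 < l := by
  rcases Nat.eq_zero_or_pos l with h | h
  · exfalso
    have h0 : c 0 = [] := List.eq_nil_of_length_eq_zero ((hl 0).trans h)
    have h1 : c 1 = [] := List.eq_nil_of_length_eq_zero ((hl 1).trans h)
    exact zero_ne_one (hc (h0.trans h1.symm))
  · exact h

include hl in
theorem ecod_length (n : ℕ) (T : Fin n → Fin n → Fin n → E) :
    (ecod c T).length = n * n * n * l := by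
  unfold ecod
  rw [flatMap_length l _ (fun a => hl _), List.length_finRange]

include hc hl in
theorem ecod_inj (n : ℕ) (T U : Fin n → Fin n → Fin n → E) (h : ecod c T = ecod c U) :
    T = U := by
  unfold ecod at h
  have h1 := flatMap_inj l _ _ (fun a => hl _) (fun a => hl _) _ h
  funext i j k
  let q : Fin (n * n) := finProdFinEquiv (i, j)
  let r : Fin (n * n * n) := finProdFinEquiv (q, k)
  have hr : finProdFinEquiv.symm r = (q, k) := Equiv.symm_apply_apply _ _
  have hq : finProdFinEquiv.symm q = (i, j) := Equiv.symm_apply_apply _ _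
  have hr1 : r.divNat = q := congrArg Prod.fst hr
  have hr2 : r.modNat = k := congrArg Prod.snd hr
  have hq1 : q.divNat = i := congrArg Prod.fst hq
  have hq2 : q.modNat = j := congrArg Prod.snd hq
  have h2 := h1 r (List.mem_finRange r)
  simp only [hr1, hr2, hq1, hq2] at h2
  exact hc h2

include hc hl in
theorem size_inj (n m : ℕ) (T T' : Fin n → Fin n → Fin n → E)
    (U U' : Fin m → Fin m → Fin m → E)
    (h : ecod c T ++ ecod c T' = ecod c U ++ ecod c U') : n = m := by
  have h1 := congrArg List.length h
  rw [List.length_append, List.length_append, ecod_length c l hl, ecod_length c l hl,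
    ecod_length c l hl, ecod_length c l hl] at h1
  have h2 : n * n * n * l = m * m * m * l := by omega
  have h3 := Nat.eq_of_mul_eq_mul_right (l_pos c l hc hl) h2
  have h4 : n ^ 3 = m ^ 3 := by
    rw [pow_succ, pow_two, pow_succ, pow_two]
    exact h3
  exact Nat.pow_left_injective (by norm_num : (3 : ℕ) ≠ 0) h4

include hc hl in
theorem pair_inj (n : ℕ) (T T' U U' : Fin n → Fin n → Fin n → E)
    (h : ecod c T ++ ecod c T' = ecod c U ++ ecod c U') : T = U ∧ T' = U' := by
  obtain ⟨h1, h2⟩ := List.append_inj h (by rw [ecod_length c l hl, ecod_length c l hl])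
  exact ⟨ecod_inj c l hc hl n _ _ h1, ecod_inj c l hc hl n _ _ h2⟩

/-! ### the key statement -/

include hc hl in
theorem key [Finite E] (hG : TgpStmt) (V : Word × Word → Bool)
    (hV : ∀ (x : Word) (M : Matrix (Fin (3 * x.length)) (Fin (3 * x.length)) E),
      V (x, encE c M) = true ↔
        ∃ (n : ℕ) (T T' : Fin n → Fin n → Fin n → E), x = ecod c T ++ ecod c T' ∧
          BlkSolR n (3 * x.length) T T' M)
    (x : Word) (N : ℕ) (hN : N = 3 * x.length) :
    Heap {A : Matrix.GeneralLinearGroup (Fin N) E | V (x, encE c A.1) = true} ∧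
      ({A : Matrix.GeneralLinearGroup (Fin N) E | V (x, encE c A.1) = true}.Nonempty ↔
        x ∈ TensorIsoE c) := by
  subst hN
  by_cases h : ∃ (n : ℕ) (T T' : Fin n → Fin n → Fin n → E), x = ecod c T ++ ecod c T'
  · obtain ⟨n, T, T', hx⟩ := h
    have hset : {A : Matrix.GeneralLinearGroup (Fin (3 * x.length)) E |
          V (x, encE c A.1) = true} =
        {A : Matrix.GeneralLinearGroup (Fin (3 * x.length)) E |
          BlkSolR n (3 * x.length) T T' A.1} := by
      ext A
      rw [Set.mem_ofPred_eq, Set.mem_ofPred_eq, hV]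
      constructor
      · rintro ⟨m, U, U', hm, hB⟩
        have e1 : n = m := size_inj c l hc hl n m T T' U U' (hx.symm.trans hm)
        subst e1
        obtain ⟨e2, e3⟩ := pair_inj c l hc hl n T T' U U' (hx.symm.trans hm)
        subst e2
        subst e3
        exact hB
      · intro hB
        exact ⟨n, T, T', hx, hB⟩
    have hlen : x.length = n * n * n * l + n * n * n * l := by
      rw [hx, List.length_append, ecod_length c l hl, ecod_length c l hl]
    have h3 : 3 * n ≤ 3 * x.length := by
      have h4 : n ≤ n * n * n * l := by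
        rcases Nat.eq_zero_or_pos n with h0 | h0
        · rw [h0]
          omega
        · calc n = n * 1 * 1 * 1 := by ring
            _ ≤ n * n * n * l :=
              Nat.mul_le_mul (Nat.mul_le_mul (Nat.mul_le_mul_left n h0) h0) (l_pos c l hc hl)
      omega
    obtain ⟨h1, h2⟩ := hG E n (3 * x.length) T T' h3
    rw [hset]
    refine ⟨h1, ?_⟩
    constructor
    · rintro ⟨A, hA⟩
      exact ⟨n, T, T', hx, h2.1 ⟨A, hA⟩⟩
    · rintro ⟨m, U, U', hm, hT⟩
      have e1 : n = m := size_inj c l hc hl n m T T' U U' (hx.symm.trans hm)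
      subst e1
      obtain ⟨e2, e3⟩ := pair_inj c l hc hl n T T' U U' (hx.symm.trans hm)
      subst e2
      subst e3
      exact h2.2 hT
  · have hemp : {A : Matrix.GeneralLinearGroup (Fin (3 * x.length)) E |
        V (x, encE c A.1) = true} = ∅ := by
      ext A
      rw [Set.mem_ofPred_eq, hV]
      constructor
      · rintro ⟨m, U, U', hm, -⟩
        exact (h ⟨m, U, U', hm⟩).elim
      · intro hA
        exact hA.elim
    rw [hemp]
    refine ⟨?_, ?_⟩
    · intro a ha
      exact ha.elim
    · constructor
      · intro hne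
        exact (Set.not_nonempty_empty hne).elim
      · rintro ⟨m, U, U', hm, -⟩
        exact (h ⟨m, U, U', hm⟩).elim

end

/-- row TFE -/
theorem tfe (hG : TgpStmt) (hT : TmeStmt) : TfeStmt := by
  intro E _ _ c l hc hl hM
  obtain ⟨V, hP, hV⟩ := hT E c l hc hl
  have hN : ∀ x : Word, (Polynomial.C 3 * Polynomial.X : Polynomial ℕ).eval x.length =
      3 * x.length := by
    intro x
    simp
  have hkey := fun x : Word => key c l hc hl hG V hV x _ (hN x)
  obtain ⟨L, hL, hLx⟩ := hM V (Polynomial.C 3 * Polynomial.X) hP Set.univ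
    (fun x _ => (hkey x).1)
  have hLe : L = TensorIsoE c := by
    ext x
    exact (hLx x (Set.mem_univ x)).trans (hkey x).2
  rw [← hLe]
  exact hL

end Pool.Agent.COSB.H21E
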