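import Pool.Agent.COSB.StmtsT

/-!
# Squad COSB, row TFP (helper21): tensor isomorphism over `Z / p` is in parity-P

The structure follows the row TIF of helper13.
-/

set_option autoImplicit false

namespace Pool.Agent.COSB.H21

open Pool.Agent.PAR Pool.Agent.COS Pool.Agent.COSB

/-! ### the words of tensors -/

theorem flatMap_inj {α β : Type} (b : ℕ) (f g : α → List β) (hf : ∀ a, (f a).length = b)
    (hg : ∀ a, (g a).length = b) (l : List α) (h : l.flatMap f = l.flatMap g) :
    ∀ a ∈ l, f a = g a := by
  induction l with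
  | nil =>
    intro a ha
    exact absurd ha (List.not_mem_nil)
  | cons x l ih =>
    rw [List.flatMap_cons, List.flatMap_cons] at h
    obtain ⟨h1, h2⟩ := List.append_inj h (by rw [hf, hg])
    intro a ha
    rcases List.mem_cons.1 ha with rfl | ha
    · exact h1
    · exact ih h2 a ha

theorem db_pos {p : ℕ} (hp : p.Prime) : 0 < db p := by
  have h2 := hp.two_le
  unfold db
  rw [Nat.size_pos]
  omega

theorem flatMap_length {α β : Type} (b : ℕ) (f : α → List β) (hf : ∀ a, (f a).length = b)
    (l : List α) : (l.flatMap f).length = l.length * b := by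
  induction l with
  | nil => simp
  | cons x l ih =>
    rw [List.flatMap_cons, List.length_append, hf, ih, List.length_cons]
    ring

theorem tcod_length (p n : ℕ) (T : Fin n → Fin n → Fin n → ZMod p) :
    (tcod p n T).length = n * n * n * db p := by
  unfold tcod
  rw [flatMap_length (db p) _ (fun a => by simp), List.length_finRange]

theorem tcod_inj {p : ℕ} (hp : p.Prime) (n : ℕ) (T U : Fin n → Fin n → Fin n → ZMod p)
    (h : tcod p n T = tcod p n U) : T = U := by
  have : NeZero p := ⟨hp.ne_zero⟩
  unfold tcod at h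
  have h1 := flatMap_inj (db p) _ _ (fun a => by simp) (fun a => by simp) _ h
  funext i j k
  let q : Fin (n * n) := finProdFinEquiv (i, j)
  let r : Fin (n * n * n) := finProdFinEquiv (q, k)
  have hr : finProdFinEquiv.symm r = (q, k) := Equiv.symm_apply_apply _ _
  have hq : finProdFinEquiv.symm q = (i, j) := Equiv.symm_apply_apply _ _
  have hr1 : r.divNat = q := congrArg Prod.fst hr
  have hr2 : r.modNat = k := congrArg Prod.snd hr
  have hq1 : q.divNat = i := congrArg Prod.fst hq
  have hq2 : q.modNat = j := congrArg Prod.snd hq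
  have h2 := h1 r (List.mem_finRange r)
  simp only [hr1, hr2, hq1, hq2] at h2
  have hlt : ∀ a : ZMod p, a.val < 2 ^ db p := by
    intro a
    have h3 : a.val < p := ZMod.val_lt a
    have h4 : p - 1 < 2 ^ db p := Nat.lt_size_self _
    omega
  apply ZMod.val_injective
  apply Nat.eq_of_testBit_eq
  intro s
  by_cases hs : s < db p
  · have h3 := List.map_inj_left.1 h2 s (List.mem_range.2 hs)
    exact h3
  · have h4 : 2 ^ db p ≤ 2 ^ s := Nat.pow_le_pow_right (by norm_num) (by omega)
    rw [Nat.testBit_lt_two_pow (lt_of_lt_of_le (hlt _) h4),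
      Nat.testBit_lt_two_pow (lt_of_lt_of_le (hlt _) h4)]

theorem size_inj {p : ℕ} (hp : p.Prime) (n m : ℕ) (T T' : Fin n → Fin n → Fin n → ZMod p)
    (U U' : Fin m → Fin m → Fin m → ZMod p)
    (h : tcod p n T ++ tcod p n T' = tcod p m U ++ tcod p m U') : n = m := by
  have h1 := congrArg List.length h
  rw [List.length_append, List.length_append, tcod_length, tcod_length, tcod_length,
    tcod_length] at h1
  have h2 : n * n * n * db p = m * m * m * db p := by omega
  have h3 := Nat.eq_of_mul_eq_mul_right (db_pos hp) h2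
  have h4 : n ^ 3 = m ^ 3 := by
    rw [pow_succ, pow_two, pow_succ, pow_two]
    exact h3
  exact Nat.pow_left_injective (by norm_num : (3 : ℕ) ≠ 0) h4

theorem pair_inj {p : ℕ} (hp : p.Prime) (n : ℕ) (T T' U U' : Fin n → Fin n → Fin n → ZMod p)
    (h : tcod p n T ++ tcod p n T' = tcod p n U ++ tcod p n U') : T = U ∧ T' = U' := by
  obtain ⟨h1, h2⟩ := List.append_inj h (by rw [tcod_length, tcod_length])
  exact ⟨tcod_inj hp n _ _ h1, tcod_inj hp n _ _ h2⟩

/-! ### the key statement -/

/-- the isomorphism of the groups -/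
def G (p N : ℕ) : Gp p 1 N ≃* Matrix.GeneralLinearGroup (Fin N) (ZMod p) :=
  Units.mapEquiv (ZMod.ringEquivCongr (pow_one p)).mapMatrix.toMulEquiv

theorem G_val (p N : ℕ) (A : Gp p 1 N) :
    (G p N A).1 = A.1.map (ZMod.ringEquivCongr (pow_one p)) := rfl

theorem heap_preimage {H K : Type} [Group H] [Group K] (f : H ≃* K) (W : Set K) (hW : Heap W) :
    Heap {A : H | f A ∈ W} := by
  intro a ha b hb c hc
  have h := hW (f a) ha (f b) hb (f c) hc
  show f (a * b⁻¹ * c) ∈ W
  rw [map_mul, map_mul, map_inv]
  exact h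

theorem key (hG : TgpStmt) {p : ℕ} (hp : p.Prime) (V : Word × Word → Bool)
    (hV : ∀ (x : Word) (M : Matrix (Fin (3 * x.length)) (Fin (3 * x.length)) (ZMod (p ^ 1))),
      V (x, encP p 1 (3 * x.length) M) = true ↔
        ∃ (n : ℕ) (T T' : Fin n → Fin n → Fin n → ZMod p), x = tcod p n T ++ tcod p n T' ∧
          BlkSolR n (3 * x.length) T T' (M.map (ZMod.ringEquivCongr (pow_one p))))
    (x : Word) (N K : ℕ) (hN : N = 3 * x.length) (hK : K = 1) :
    Heap {A : Gp p K N | V (x, encP p K N A.1) = true} ∧
      ({A : Gp p K N | V (x, encP p K N A.1) = true}.Nonempty ↔ x ∈ TensorIsoP p) := by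
  subst hN
  subst hK
  have : NeZero p := ⟨hp.ne_zero⟩
  by_cases h : ∃ (n : ℕ) (T T' : Fin n → Fin n → Fin n → ZMod p),
      x = tcod p n T ++ tcod p n T'
  · obtain ⟨n, T, T', hx⟩ := h
    have hset : {A : Gp p 1 (3 * x.length) | V (x, encP p 1 (3 * x.length) A.1) = true} =
        {A : Gp p 1 (3 * x.length) | G p (3 * x.length) A ∈
          {M : Matrix.GeneralLinearGroup (Fin (3 * x.length)) (ZMod p) |
            BlkSolR n (3 * x.length) T T' M.1}} := by
      ext A
      rw [Set.mem_ofPred_eq, Set.mem_ofPred_eq, hV, Set.mem_ofPred_eq, G_val]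
      constructor
      · rintro ⟨m, U, U', hm, hB⟩
        have e1 : n = m := size_inj hp n m T T' U U' (hx.symm.trans hm)
        subst e1
        obtain ⟨e2, e3⟩ := pair_inj hp n T T' U U' (hx.symm.trans hm)
        subst e2
        subst e3
        exact hB
      · intro hB
        exact ⟨n, T, T', hx, hB⟩
    have hlen : x.length = n * n * n * db p + n * n * n * db p := by
      rw [hx, List.length_append, tcod_length, tcod_length]
    have h3 : 3 * n ≤ 3 * x.length := by
      have h4 : n ≤ n * n * n * db p := by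
        rcases Nat.eq_zero_or_pos n with h0 | h0
        · rw [h0]
          omega
        · calc n = n * 1 * 1 * 1 := by ring
            _ ≤ n * n * n * db p :=
              Nat.mul_le_mul (Nat.mul_le_mul (Nat.mul_le_mul_left n h0) h0) (db_pos hp)
      omega
    obtain ⟨h1, h2⟩ := hG (ZMod p) n (3 * x.length) T T' h3
    rw [hset]
    refine ⟨heap_preimage _ _ h1, ?_⟩
    constructor
    · rintro ⟨A, hA⟩
      exact ⟨n, T, T', hx, h2.1 ⟨G p (3 * x.length) A, hA⟩⟩
    · rintro ⟨m, U, U', hm, hT⟩
      have e1 : n = m := size_inj hp n m T T' U U' (hx.symm.trans hm)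
      subst e1
      obtain ⟨e2, e3⟩ := pair_inj hp n T T' U U' (hx.symm.trans hm)
      subst e2
      subst e3
      obtain ⟨M, hM⟩ := h2.2 hT
      obtain ⟨A, hA⟩ := (G p (3 * x.length)).surjective M
      refine ⟨A, ?_⟩
      rw [Set.mem_ofPred_eq, hA]
      exact hM
  · have hemp : {A : Gp p 1 (3 * x.length) | V (x, encP p 1 (3 * x.length) A.1) = true} = ∅ := by
      ext A
      rw [Set.mem_ofPred_eq, hV]
      constructor
      · rintro ⟨m, U, U', hm, -⟩
        exact (h ⟨m, U, U', hm⟩).elim
      · intro hA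
        exact hA.elim
    rw [hemp]
    refine ⟨?_, ?_⟩
    · intro a ha
      exact ha.elim
    · constructor
      · intro hne
        exact (Set.not_nonempty_empty hne).elim
      · rintro ⟨m, U, U', hm, -⟩
        exact (h ⟨m, U, U', hm⟩).elim

/-- row TFP -/
theorem tfp (hG : TgpStmt) (hT : TmpStmt) : TfpStmt := by
  intro p hp hM
  obtain ⟨V, hP, hV⟩ := hT p hp
  have hN : ∀ x : Word, (Polynomial.C 3 * Polynomial.X : Polynomial ℕ).eval x.length =
      3 * x.length := by
    intro x
    simp
  have hK : ∀ m : ℕ, (Polynomial.C 1 : Polynomial ℕ).eval m = 1 := by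
    intro m
    simp
  have hkey := fun x : Word => key hG hp V hV x _ _ (hN x) (hK x.length)
  obtain ⟨L, hL, hLx⟩ := hM V (Polynomial.C 3 * Polynomial.X) (Polynomial.C 1) hP
    (fun m => by rw [hK]; exact Nat.one_pos) Set.univ (fun x _ => (hkey x).1)
  have hLe : L = TensorIsoP p := by
    ext x
    exact (hLx x (Set.mem_univ x)).trans (hkey x).2
  rw [← hLe]
  exact hL

end Pool.Agent.COSB.H21
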